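import Pool.Agent.H14.ES.Stm

set_option autoImplicit false

namespace Pool.Agent.H74.ES

open MeasureTheory Set H14.ES
open scoped ENNReal

theorem t_REI : S_REI := by
  intro I I' _ _ e
  classical
  refine ⟨by fun_prop, ?_⟩
  unfold mu
  refine Measure.eq_infinitePi _ fun s t ht => ?_
  rw [Measure.map_apply (by fun_prop) (.pi s.countable_toSet fun _ _ => ht _)]
  have h1 : (fun ω : I → Bool => ω ∘ e) ⁻¹' (Set.pi (s : Set I') t) =
      Set.pi ((s.map e.toEmbedding : Finset I) : Set I) (fun i => t (e.symm i)) := by
    ext ω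
    simp only [mem_preimage, Set.mem_pi, Finset.coe_map, Function.comp_apply, mem_image,
      Finset.mem_coe, Equiv.coe_toEmbedding]
    constructor
    · rintro h _ ⟨i, hi, rfl⟩
      simpa using h i hi
    · intro h i hi
      simpa using h (e i) ⟨i, hi, rfl⟩
  rw [h1, Measure.infinitePi_pi _ (fun i _ => ht _), Finset.prod_map]
  simp

theorem coin_singleton (b : Bool) : coin {b} = 2⁻¹ := by
  cases b <;> simp [coin]

theorem lab_succ (m : ℕ) (u : ℕ → Bool) :
    lab (m + 1) u = (if u (m + 2) then 2 ^ m else 0) + lab m u := by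
  rw [lab, Finset.sum_range_succ, add_comm]
  rfl

theorem lab_lt (m : ℕ) (u : ℕ → Bool) : lab m u < 2 ^ m := by
  induction m with
  | zero => simp [lab]
  | succ m ih =>
    rw [lab_succ, pow_succ]
    split_ifs <;> omega

theorem lab_testBit (m : ℕ) (u : ℕ → Bool) (i : ℕ) :
    (lab m u).testBit i = (decide (i < m) && u (i + 2)) := by
  induction m with
  | zero => simp [lab]
  | succ m ih =>
    rw [lab_succ]
    by_cases h : u (m + 2) = true
    · rw [if_pos h]
      rcases lt_trichotomy i m with hi | rfl | hi
      · rw [Nat.testBit_two_pow_add_gt hi, ih]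
        simp [hi, Nat.lt_succ_of_lt hi]
      · rw [Nat.testBit_two_pow_add_eq, Nat.testBit_lt_two_pow (lab_lt i u)]
        simp [h]
      · have h1 : 2 ^ m + lab m u < 2 ^ i := by
          have h2 := lab_lt m u
          have h3 : 2 ^ (m + 1) ≤ 2 ^ i := Nat.pow_le_pow_right (by norm_num) hi
          rw [pow_succ] at h3
          omega
        rw [Nat.testBit_lt_two_pow h1]
        have : ¬ i < m + 1 := by omega
        simp [this]
    · rw [if_neg h, zero_add, ih]
      rcases lt_trichotomy i m with hi | rfl | hi
      · simp [hi, Nat.lt_succ_of_lt hi]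
      · simp [h]
      · have h1 : ¬ i < m := by omega
        have h2 : ¬ i < m + 1 := by omega
        simp [h1, h2]

theorem lab_eq_iff (m j : ℕ) (hj : j < 2 ^ m) (u : ℕ → Bool) :
    lab m u = j ↔ ∀ i < m, u (i + 2) = j.testBit i := by
  constructor
  · rintro rfl i hi
    rw [lab_testBit]
    simp [hi]
  · intro h
    apply Nat.eq_of_testBit_eq
    intro i
    rw [lab_testBit]
    by_cases hi : i < m
    · simp [hi, h i hi]
    · have : j < 2 ^ i := lt_of_lt_of_le hj (Nat.pow_le_pow_right (by norm_num) (by omega))
      rw [Nat.testBit_lt_two_pow this]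
      simp [hi]

theorem t_SIT : S_SIT := by
  intro m j hj x y
  have h1 : {u : ℕ → Bool | lab m u = j ∧ u 0 = x ∧ u 1 = y} =
      Set.pi ((Finset.range (m + 2) : Finset ℕ) : Set ℕ)
        (fun i => {if i = 0 then x else if i = 1 then y else j.testBit (i - 2)}) := by
    ext u
    simp only [Set.mem_ofPred_eq, Set.mem_pi, Finset.coe_range, mem_Iio, mem_singleton_iff,
      lab_eq_iff m j hj u]
    constructor
    · rintro ⟨h, h0, h1⟩ i hi
      rcases i with _ | _ | i
      · simpa using h0
      · simpa using h1
      · simpa using h i (by omega)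
    · intro h
      refine ⟨fun i hi => ?_, ?_, ?_⟩
      · simpa using h (i + 2) (by omega)
      · simpa using h 0 (by omega)
      · simpa using h 1 (by omega)
  rw [h1, mu, Measure.infinitePi_pi _ (fun i _ => measurableSet_singleton _)]
  simp only [coin_singleton, Finset.prod_const, Finset.card_range]
  rw [ENNReal.inv_pow]

end Pool.Agent.H74.ES
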